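import Pool.Agent.helper48.PR.SpecC

/-!
# Project pr (MP_a2a22c_al), module C4c: conjugation of the root vectors by `r (el i j 1)`
-/

set_option autoImplicit false

namespace Pool.Agent.PR

open Matrix

section

variable {A : Type*} [Ring A] [Module ℚ A]

/-- a relation `g x = y g` is inherited by the exponentials -/
theorem C4c_exp {g x y : A} [IsScalarTower ℚ A A] [SMulCommClass ℚ A A] (hx : IsNilpotent x)
    (hy : IsNilpotent y) (h : g * x = y * g) :
    g * IsNilpotent.exp x = IsNilpotent.exp y * g := by
  obtain ⟨a, ha⟩ := hx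
  obtain ⟨b, hb⟩ := hy
  have ha' : x ^ (a + b) = 0 := by rw [pow_add, ha, zero_mul]
  have hb' : y ^ (a + b) = 0 := by rw [pow_add, hb, mul_zero]
  rw [IsNilpotent.exp_eq_sum ha', IsNilpotent.exp_eq_sum hb', Finset.mul_sum, Finset.sum_mul]
  refine Finset.sum_congr rfl fun i _ => ?_
  have : ∀ i : ℕ, g * x ^ i = y ^ i * g := by
    intro i
    induction i with
    | zero => simp
    | succ i ih => rw [pow_succ, ← mul_assoc, ih, mul_assoc, h, ← mul_assoc, ← pow_succ]
  rw [mul_smul_comm, smul_mul_assoc, this]

/-- conjugation by an exponential -/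
theorem C4c_E {x b c : A} [IsScalarTower ℚ A A] [SMulCommClass ℚ A A] (hx : IsNilpotent x)
    (hc : x * c = c * x) (h : x * b - b * x = c) :
    IsNilpotent.exp x * b = (b + c) * IsNilpotent.exp x := by
  obtain ⟨N, hN⟩ := hx
  have hN' : x ^ (N + 1) = 0 := by rw [pow_succ, hN, zero_mul]
  have h' : x * b = b * x + c := by rw [← h]; abel
  have key : ∀ k : ℕ, x ^ (k + 1) * b = b * x ^ (k + 1) + (k + 1 : ℕ) • (c * x ^ k) := by
    intro k
    induction k with
    | zero => simp [h']
    | succ k ih =>
      rw [pow_succ' x (k + 1), mul_assoc, ih, mul_add, ← mul_assoc, h', add_mul, mul_assoc,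
        ← pow_succ' x (k + 1), mul_smul_comm, ← mul_assoc x c, hc, mul_assoc c x, ← pow_succ' x k,
        add_assoc, succ_nsmul' (c * x ^ (k + 1)) (k + 1)]
  have e1 : IsNilpotent.exp x * b =
      ∑ k ∈ Finset.range (N + 1), ((k.factorial : ℚ)⁻¹ • (x ^ k * b)) := by
    rw [IsNilpotent.exp_eq_sum hN', Finset.sum_mul]
    exact Finset.sum_congr rfl fun i _ => by rw [smul_mul_assoc]
  have e2 : b * IsNilpotent.exp x =
      ∑ k ∈ Finset.range (N + 1), ((k.factorial : ℚ)⁻¹ • (b * x ^ k)) := by
    rw [IsNilpotent.exp_eq_sum hN', Finset.mul_sum]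
    exact Finset.sum_congr rfl fun i _ => by rw [mul_smul_comm]
  have e3 : c * IsNilpotent.exp x =
      ∑ k ∈ Finset.range N, ((k.factorial : ℚ)⁻¹ • (c * x ^ k)) := by
    rw [IsNilpotent.exp_eq_sum hN, Finset.mul_sum]
    exact Finset.sum_congr rfl fun i _ => by rw [mul_smul_comm]
  rw [add_mul, e1, e2, e3, Finset.sum_range_succ', Finset.sum_range_succ' _ N]
  simp only [pow_zero, one_mul, mul_one]
  rw [add_right_comm, ← Finset.sum_add_distrib]
  congr 1
  refine Finset.sum_congr rfl fun k _ => ?_
  rw [key, smul_add]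
  congr 1
  rw [← Nat.cast_smul_eq_nsmul ℚ, smul_smul]
  congr 1
  have h1 : ((k + 1 : ℕ) : ℚ) ≠ 0 := by positivity
  have h2 : ((k.factorial : ℕ) : ℚ) ≠ 0 := by exact_mod_cast k.factorial_ne_zero
  rw [Nat.factorial_succ, Nat.cast_mul]
  field_simp

end

theorem C4c (hC2 : C2_stmt) : C4c_stmt := by
  intro n hn F _ _ r M hM hr i j h l m hlm
  obtain ⟨lg, -, hlg⟩ := hC2 n F
  have uniq : ∀ X Y : Matrix (Fin n) (Fin n) F, IsNilpotent X → IsNilpotent Y →
      IsNilpotent.exp X = IsNilpotent.exp Y → X = Y := by
    intro X Y hX hY hXY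
    rw [← hlg X hX, ← hlg Y hY, hXY]
  have hK : ((n.factorial : ℕ) : F) ≠ 0 := by exact_mod_cast n.factorial_ne_zero
  have gg' : r (el i j h 1) * r (el i j h (-1)) = 1 := by
    rw [← map_mul, el_add, add_neg_cancel, el_zero, map_one]
  have g'g : r (el i j h (-1)) * r (el i j h 1) = 1 := by
    rw [← map_mul, el_add, neg_add_cancel, el_zero, map_one]
  have conj : ∀ X Z : Matrix (Fin n) (Fin n) F, IsNilpotent X → IsNilpotent Z →
      r (el i j h 1) * IsNilpotent.exp X = IsNilpotent.exp Z * r (el i j h 1) →
      r (el i j h 1) * X = Z * r (el i j h 1) := by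
    intro X Z hX hZ hXZ
    have hY : IsNilpotent (r (el i j h 1) * X * r (el i j h (-1))) := by
      obtain ⟨k, hk⟩ := hX
      refine ⟨k, ?_⟩
      have : ∀ k : ℕ, (r (el i j h 1) * X * r (el i j h (-1))) ^ k =
          r (el i j h 1) * X ^ k * r (el i j h (-1)) := by
        intro k
        induction k with
        | zero => simp [gg']
        | succ k ih =>
          rw [pow_succ, ih]
          calc r (el i j h 1) * X ^ k * r (el i j h (-1)) *
                (r (el i j h 1) * X * r (el i j h (-1))) =
                r (el i j h 1) * X ^ k * (r (el i j h (-1)) * r (el i j h 1)) * X *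
                  r (el i j h (-1)) := by simp only [mul_assoc]
            _ = _ := by rw [g'g, mul_one, mul_assoc (r (el i j h 1)) (X ^ k) X, ← pow_succ]
      rw [this, hk, mul_zero, zero_mul]
    have h1 : r (el i j h 1) * X = r (el i j h 1) * X * r (el i j h (-1)) * r (el i j h 1) := by
      rw [mul_assoc (r (el i j h 1) * X), g'g, mul_one]
    have h2 := C4c_exp hX hY h1
    have h3 : IsNilpotent.exp (r (el i j h 1) * X * r (el i j h (-1))) = IsNilpotent.exp Z := by
      rw [hXZ] at h2
      have := congrArg (· * r (el i j h (-1))) h2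
      simp only [mul_assoc, gg', mul_one] at this
      simp only [mul_assoc]
      exact this.symm
    have h4 := uniq _ _ hY hZ h3
    rw [h4] at h1
    exact h1
  have hE := IsNilpotent.exp_mul_exp_neg_self (hr i j h).1
  -- `Q X`
  have fin : ∀ X W : Matrix (Fin n) (Fin n) F, r (el i j h 1) * X = W * r (el i j h 1) →
      IsNilpotent.exp (M i j) * X = W * IsNilpotent.exp (M i j) →
      r (el i j h 1) * X =
        IsNilpotent.exp (M i j) * X * IsNilpotent.exp (-M i j) * r (el i j h 1) := by
    intro X W h1 h2
    rw [h1, h2, mul_assoc W, hE, mul_one]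
  have nilK : ∀ (a b : Fin n), a ≠ b → IsNilpotent ((n.factorial : F) • M a b) := by
    intro a b hab
    exact (hr a b hab).1.smul _
  have hcancel : ∀ X W : Matrix (Fin n) (Fin n) F,
      r (el i j h 1) * ((n.factorial : F) • X) = ((n.factorial : F) • W) * r (el i j h 1) →
      r (el i j h 1) * X = W * r (el i j h 1) := by
    intro X W h1
    rw [mul_smul_comm, smul_mul_assoc] at h1
    exact smul_right_injective _ hK h1
  -- case j = l, i ≠ m
  have caseB : ∀ m : Fin n, j ≠ m → i ≠ m → r (el i j h 1) * M j m =
      IsNilpotent.exp (M i j) * M j m * IsNilpotent.exp (-M i j) * r (el i j h 1) := by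
    intro m hjm him
    have e := el_commutator h hjm him 1 (n.factorial : ℤ)
    have e' := congrArg r e
    rw [map_mul, map_mul, map_mul, one_mul, (hr j m hjm).2, (hr i m him).2] at e'
    have comm : M i m * M j m = M j m * M i m := hM.r2 i m j m him hjm hjm.symm him
    have commK : Commute ((n.factorial : F) • M i m) ((n.factorial : F) • M j m) :=
      ((show Commute (M i m) (M j m) from comm).smul_left _).smul_right _
    rw [← IsNilpotent.exp_add_of_commute commK (nilK i m him) (nilK j m hjm)] at e'
    have e2 := conj _ _ (nilK j m hjm) (commK.isNilpotent_add (nilK i m him) (nilK j m hjm)) e'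
    rw [← smul_add] at e2
    have e3 := hcancel _ _ e2
    refine fin _ _ e3 ?_
    have c1 : M i j * M i m = M i m * M i j := hM.r2 i j i m h him h.symm him
    have := C4c_E (hr i j h).1 c1 (hM.r1 i j m h hjm him)
    rw [this, add_comm]
  -- case i = m, j ≠ l
  have caseC : ∀ l : Fin n, l ≠ i → l ≠ j → r (el i j h 1) * M l i =
      IsNilpotent.exp (M i j) * M l i * IsNilpotent.exp (-M i j) * r (el i j h 1) := by
    intro l hli hlj
    have e := el_commutator hli h hlj (n.factorial : ℤ) 1
    have e' := congrArg r e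
    rw [map_mul, map_mul, map_mul, mul_one, (hr l i hli).2, (hr l j hlj).2] at e'
    have neg1 := IsNilpotent.exp_neg_mul_exp_self (nilK l j hlj)
    have e4 : r (el i j h 1) * IsNilpotent.exp ((n.factorial : F) • M l i) =
        IsNilpotent.exp (-((n.factorial : F) • M l j)) *
          IsNilpotent.exp ((n.factorial : F) • M l i) * r (el i j h 1) := by
      rw [mul_assoc, e', ← mul_assoc, ← mul_assoc, neg1, one_mul]
    have comm : M l j * M l i = M l i * M l j := hM.r2 l j l i hlj hli hlj.symm hli
    have commK : Commute (-((n.factorial : F) • M l j)) ((n.factorial : F) • M l i) :=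
      (((show Commute (M l j) (M l i) from comm).smul_left _).smul_right _).neg_left
    rw [← IsNilpotent.exp_add_of_commute commK (nilK l j hlj).neg (nilK l i hli)] at e4
    have e2 := conj _ _ (nilK l i hli) (commK.isNilpotent_add (nilK l j hlj).neg (nilK l i hli)) e4
    rw [← smul_neg, ← smul_add] at e2
    have e3 := hcancel _ _ e2
    refine fin _ _ e3 ?_
    have c1 : M i j * M l j = M l j * M i j := hM.r2 i j l j h hlj hlj.symm h
    have c2 : M i j * M l i - M l i * M i j = -M l j := by
      rw [← hM.r1 l i j hli h hlj]; abel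
    have := C4c_E (hr i j h).1 (by rw [mul_neg, neg_mul, c1]) c2
    rw [this, add_comm]
  by_cases hjl : j = l
  · subst hjl
    by_cases him : i = m
    · subst him
      -- third index
      obtain ⟨p, hp⟩ : ∃ p : Fin n, p ≠ i ∧ p ≠ j := by
        have : 2 < (Finset.univ : Finset (Fin n)).card := by simp; omega
        obtain ⟨p, -, hp⟩ := Finset.exists_mem_notMem_of_card_lt_card
          (s := {i, j}) (t := (Finset.univ : Finset (Fin n)))
          (lt_of_le_of_lt Finset.card_le_two this)
        simp only [Finset.mem_insert, Finset.mem_singleton, not_or] at hp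
        exact ⟨p, hp⟩
      have b := caseB p hp.2.symm hp.1.symm
      have c := caseC p hp.1 hp.2
      have hE' := IsNilpotent.exp_neg_mul_exp_self (hr i j h).1
      have e := hM.r1 j p i hp.2.symm hp.1 h.symm
      rw [← e]
      set g := r (el i j h 1) with hg
      set E := IsNilpotent.exp (M i j)
      set E' := IsNilpotent.exp (-M i j)
      have prod : ∀ X Y : Matrix (Fin n) (Fin n) F, g * X = E * X * E' * g →
          g * Y = E * Y * E' * g → g * (X * Y) = E * (X * Y) * E' * g := by
        intro X Y h1 h2
        calc g * (X * Y) = (g * X) * Y := by rw [mul_assoc]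
          _ = E * X * E' * (g * Y) := by rw [h1, mul_assoc]
          _ = E * X * (E' * E) * Y * E' * g := by rw [h2]; simp only [mul_assoc]
          _ = _ := by rw [hE', mul_one]; simp only [mul_assoc]
      rw [mul_sub, prod _ _ b c, prod _ _ c b, mul_sub, sub_mul, sub_mul]
    · exact caseB m hlm him
  · by_cases him : i = m
    · subst him
      exact caseC l hlm (Ne.symm hjl)
    · have e := el_comm h hlm hjl him 1 (n.factorial : ℤ)
      have e' := congrArg r e
      rw [map_mul, map_mul, (hr l m hlm).2] at e'
      have e2 := conj _ _ (nilK l m hlm) (nilK l m hlm) e'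
      have e3 := hcancel _ _ e2
      refine fin _ _ e3 ?_
      have c := hM.r2 i j l m h hlm hjl him
      have := C4c_E (c := 0) (hr i j h).1 (by simp) (by rw [c, sub_self])
      rw [this, add_zero]

end Pool.Agent.PR
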