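import Pool.Agent.helper5.PR.SpecS
import Pool.Agent.helper48.PR.Base
import Pool.Agent.helper48.SLn.Basis

set_option autoImplicit false

namespace Pool.Agent.PR

open Matrix Pool.Agent.H48SL

variable {ι : Type*} [Fintype ι] [DecidableEq ι]

/-- an element of `ES S` does not change the coordinates outside `S` -/
theorem S_SAND_row {S : Finset ι} {a : SpecialLinearGroup ι ℤ} (ha : a ∈ ES S) {j : ι} (hj : j ∉ S) :
    ∀ v : ι → ℤ, ((a : Matrix ι ι ℤ) *ᵥ v) j = v j := by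
  induction ha using Subgroup.closure_induction with
  | mem g hg =>
    obtain ⟨i, hi, k, hk, hik, c, rfl⟩ := hg
    intro v
    rw [xe_mulVec hik]
    have : i ≠ j := fun h => hj (h ▸ hi)
    simp [Ne.symm this]
  | one => intro v; rw [Matrix.SpecialLinearGroup.coe_one, one_mulVec]
  | mul a b _ _ iha ihb =>
    intro v
    rw [Matrix.SpecialLinearGroup.coe_mul, ← mulVec_mulVec, iha, ihb]
  | inv a _ iha =>
    intro v
    have h := iha (((a⁻¹ : SpecialLinearGroup ι ℤ) : Matrix ι ι ℤ) *ᵥ v)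
    rw [mulVec_mulVec, ← Matrix.SpecialLinearGroup.coe_mul, mul_inv_cancel,
      Matrix.SpecialLinearGroup.coe_one, one_mulVec] at h
    exact h.symm

omit [DecidableEq ι] in
/-- primitive vectors have no common divisor -/
theorem S_SAND_prim {u p : ι → ℤ} (h : p ⬝ᵥ u = 1) (d : ℤ) (hd : ∀ i, d ∣ u i) : IsUnit d := by
  apply isUnit_of_dvd_one
  rw [← h]
  unfold dotProduct
  exact Finset.dvd_sum (fun i _ => Dvd.dvd.mul_left (hd i) _)

/-- `(u, ψ)` is equivalent to `(e_0, e_1^*)` -/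
theorem S_SAND_move {n : ℕ} (hn : 3 ≤ n) (u ψ p q : Fin n → ℤ) (hu : p ⬝ᵥ u = 1) (hψ : ψ ⬝ᵥ q = 1)
    (h0 : ψ ⬝ᵥ u = 0) :
    ∃ g : SLZ n, ∀ a : ℤ, g * tv u (a • ψ) * g⁻¹ = el ⟨0, by omega⟩ ⟨1, by omega⟩ (by simp) a := by
  set i0 : Fin n := ⟨0, by omega⟩ with hi0
  set i1 : Fin n := ⟨1, by omega⟩ with hi1
  have h01 : i0 ≠ i1 := by simp [hi0, hi1]
  obtain ⟨g1, -, hg1⟩ := euclid (Finset.univ : Finset (Fin n)) i0 (Finset.mem_univ _)
    (by rw [Finset.card_univ, Fintype.card_fin]; omega) _ u rfl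
    (fun d hd => S_SAND_prim hu d (fun i => hd i (Finset.mem_univ _)))
  have hg1u : (g1 : Matrix (Fin n) (Fin n) ℤ) *ᵥ u = Pi.single i0 1 := by
    ext i
    rw [hg1 i (Finset.mem_univ _), Pi.single_apply]
  set ψ' : Fin n → ℤ := ψ ᵥ* ((g1⁻¹ : SLZ n) : Matrix (Fin n) (Fin n) ℤ) with hψ'
  have h1 : ψ' i0 = 0 := by
    have h2 : ψ' ⬝ᵥ (Pi.single i0 1) = 0 := by
      rw [← hg1u, hψ', vecMul_inv_dot, h0]
    simpa using h2
  have h3 : (((g1 : SLZ n) : Matrix (Fin n) (Fin n) ℤ) *ᵥ q) ⬝ᵥ ψ' = 1 := by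
    rw [dotProduct_comm, hψ', vecMul_inv_dot, hψ]
  have hcard : 2 ≤ ((Finset.univ : Finset (Fin n)).erase i0).card := by
    rw [Finset.card_erase_of_mem (Finset.mem_univ _), Finset.card_univ, Fintype.card_fin]
    omega
  obtain ⟨a, ha, hfin⟩ := euclid ((Finset.univ : Finset (Fin n)).erase i0) i1
    (Finset.mem_erase.mpr ⟨h01.symm, Finset.mem_univ _⟩) hcard _ ψ' rfl (by
      intro d hd
      apply S_SAND_prim h3 d
      intro i
      by_cases hi : i = i0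
      · rw [hi, h1]; exact dvd_zero _
      · exact hd i (Finset.mem_erase.mpr ⟨hi, Finset.mem_univ _⟩))
  have hrow := S_SAND_row ha (Finset.notMem_erase i0 _)
  have haψ : (a : Matrix (Fin n) (Fin n) ℤ) *ᵥ ψ' = Pi.single i1 1 := by
    ext i
    by_cases hi : i = i0
    · rw [hi, hrow, h1, Pi.single_apply, if_neg h01]
    · rw [hfin i (Finset.mem_erase.mpr ⟨hi, Finset.mem_univ _⟩), Pi.single_apply]
  have hae : (Pi.single i0 1 : Fin n → ℤ) ᵥ* (a : Matrix (Fin n) (Fin n) ℤ) = Pi.single i0 1 := by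
    ext j
    have h4 := hrow (Pi.single j 1)
    rw [mulVec_single_one] at h4
    rw [single_one_vecMul]
    simp only [col_apply] at h4
    rw [row_apply, h4, Pi.single_apply, Pi.single_apply]
    by_cases hj : j = i0
    · simp [hj]
    · simp [hj, Ne.symm hj]
  set t : SLZ n := a.transpose with ht
  have htm : (t : Matrix (Fin n) (Fin n) ℤ) = (a : Matrix (Fin n) (Fin n) ℤ)ᵀ := rfl
  refine ⟨t⁻¹ * g1, fun c => ?_⟩
  have h5 : (c • ψ) ⬝ᵥ u = 0 := by rw [smul_dotProduct, h0, smul_zero]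
  rw [tv_conj h5, el_eq_xe]
  unfold xe
  congr 1
  · rw [Matrix.SpecialLinearGroup.coe_mul, ← mulVec_mulVec, hg1u]
    have h6 : (t : Matrix (Fin n) (Fin n) ℤ) *ᵥ (Pi.single i0 1) = Pi.single i0 1 := by
      rw [htm, mulVec_transpose, hae]
    conv_lhs => rw [← h6]
    rw [mulVec_mulVec, ← Matrix.SpecialLinearGroup.coe_mul, inv_mul_cancel,
      Matrix.SpecialLinearGroup.coe_one, one_mulVec]
  · rw [_root_.mul_inv_rev, inv_inv, Matrix.SpecialLinearGroup.coe_mul, ← vecMul_vecMul, smul_vecMul, ← hψ',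
      htm, vecMul_transpose, mulVec_smul, haψ]
    ext i
    simp [Pi.single_apply, hi1]

/-- the key lemma -/
theorem S_SAND_key {n : ℕ} (hn : 3 ≤ n) {Q : Type} [Group Q] (φ : SLZ n →* Q)
    (u ψ p q : Fin n → ℤ) (hu : p ⬝ᵥ u = 1) (hψ : ψ ⬝ᵥ q = 1) (h0 : ψ ⬝ᵥ u = 0) (a : ℤ) :
    φ (tv u (a • ψ)) = 1 ↔ ((orderOf (φ (e01 n hn)) : ℕ) : ℤ) ∣ a := by
  obtain ⟨g, hg⟩ := S_SAND_move hn u ψ p q hu hψ h0
  have h1 : φ (el ⟨0, by omega⟩ ⟨1, by omega⟩ (by simp) a : SLZ n) = φ (e01 n hn) ^ a := by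
    rw [← map_zpow]
    congr 1
    unfold e01
    rcases Int.eq_nat_or_neg a with ⟨m, rfl | rfl⟩
    · rw [zpow_natCast, el_pow, mul_one]
    · rw [_root_.zpow_neg, zpow_natCast, el_pow, mul_one, el_neg]
  have h2 : φ (tv u (a • ψ)) = 1 ↔ φ (el ⟨0, by omega⟩ ⟨1, by omega⟩ (by simp) a : SLZ n) = 1 := by
    rw [← hg a, map_mul, map_mul, map_inv]
    constructor
    · intro h; rw [h]; simp
    · intro h
      have h3 := congrArg (fun w => (φ g)⁻¹ * w * φ g) h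
      simpa [mul_assoc] using h3
  rw [h2, h1, orderOf_dvd_iff_zpow_eq_one]

theorem S_SAND_tv_single {n : ℕ} {i j : Fin n} (h : i ≠ j) (a : ℤ) :
    el i j h a = tv (Pi.single i 1) (a • Pi.single j 1) := by
  rw [el_eq_xe]
  unfold xe
  congr 1
  ext l
  simp [Pi.single_apply]

theorem S_SAND_one {n : ℕ} (hM : M_ALL_stmt) (hn : 3 ≤ n) (Q : Type) [Group Q] [Finite Q] (φ : SLZ n →* Q)
    (γ : SLZ n) (hγ : MC (orderOf (φ (e01 n hn))) (γ : Matrix (Fin n) (Fin n) ℤ) 1) : φ γ = 1 := by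
  set j := orderOf (φ (e01 n hn)) with hj
  have hj1 : 1 ≤ j := orderOf_pos _
  have hE : Elem (j : ℤ) φ.ker := by
    refine ⟨inferInstance, fun g i k hik hg => ?_⟩
    have h1 : g = el i k hik j := by
      apply SL_ext
      rw [hg, el_coe]
    rw [h1, MonoidHom.mem_ker, S_SAND_tv_single]
    rw [S_SAND_key hn φ (Pi.single i 1) (Pi.single k 1) (Pi.single i 1) (Pi.single k 1) (by simp) (by simp)
      (by simp [hik]) j]
  have h2 := hM n hn j hj1 φ.ker hE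
  have h3 : γ ∈ (SpecialLinearGroup.map (n := Fin n) (Int.castRingHom (ZMod j))).ker := by
    rw [MonoidHom.mem_ker]
    apply Subtype.ext
    ext i k
    have h4 := hγ i k
    have h5 := (ZMod.intCast_zmod_eq_zero_iff_dvd _ j).mpr h4
    rw [Int.cast_sub, sub_eq_zero] at h5
    show (Int.castRingHom (ZMod j)) ((γ : Matrix (Fin n) (Fin n) ℤ) i k) = (1 : Matrix (Fin n) (Fin n) (ZMod j)) i k
    rw [eq_intCast, h5, Matrix.one_apply, Matrix.one_apply]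
    split_ifs <;> simp
  exact h2 h3

/-- the sandwich step -/
theorem S_SAND_step {n : ℕ} (hn : 3 ≤ n) (Q : Type) [Group Q] (φ : SLZ n →* Q)
    (x : SLZ n) (hx : φ x = 1) (ψ q w : Fin n → ℤ) (hq : ψ ⬝ᵥ q = 1) (hw : ψ ⬝ᵥ w = 0) :
    ((orderOf (φ (e01 n hn)) : ℕ) : ℤ) ∣ ψ ⬝ᵥ (((x⁻¹ : SLZ n) : Matrix (Fin n) (Fin n) ℤ) *ᵥ w) := by
  -- a vector killed by `ψ` and `ψ x`
  obtain ⟨v, hv0, hv1, hv2⟩ : ∃ v : Fin n → ℤ, v ≠ 0 ∧ ψ ⬝ᵥ v = 0 ∧
      ψ ⬝ᵥ ((x : Matrix (Fin n) (Fin n) ℤ) *ᵥ v) = 0 := by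
    let i0 : Fin n := ⟨0, by omega⟩
    let i1 : Fin n := ⟨1, by omega⟩
    let i2 : Fin n := ⟨2, by omega⟩
    let A : Matrix (Fin n) (Fin n) ℤ := fun i => if i = i0 then ψ else if i = i1 then
      ψ ᵥ* (x : Matrix (Fin n) (Fin n) ℤ) else 0
    have hA : A.det = 0 := by
      apply Matrix.det_eq_zero_of_row_eq_zero i2
      intro j
      simp [A, i0, i1, i2]
    obtain ⟨v, hv, hAv⟩ := Matrix.exists_mulVec_eq_zero_iff.mpr hA
    refine ⟨v, hv, ?_, ?_⟩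
    · have := congrFun hAv i0
      simpa [A, mulVec] using this
    · have := congrFun hAv i1
      rw [dotProduct_mulVec]
      simpa [A, mulVec, i0, i1] using this
  obtain ⟨k, u, p, hk, rfl, hpu⟩ := primitive_part v hv0
  have hu1 : ψ ⬝ᵥ u = 0 := by
    rw [dotProduct_smul, smul_eq_mul] at hv1
    exact (mul_eq_zero.mp hv1).resolve_left hk
  have hu2 : ψ ⬝ᵥ ((x : Matrix (Fin n) (Fin n) ℤ) *ᵥ u) = 0 := by
    rw [mulVec_smul, dotProduct_smul, smul_eq_mul] at hv2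
    exact (mul_eq_zero.mp hv2).resolve_left hk
  -- `xu` is primitive
  set xu : Fin n → ℤ := (x : Matrix (Fin n) (Fin n) ℤ) *ᵥ u with hxu
  set ψy : Fin n → ℤ := ψ ᵥ* ((x⁻¹ : SLZ n) : Matrix (Fin n) (Fin n) ℤ) with hψy
  have hp' : (p ᵥ* ((x⁻¹ : SLZ n) : Matrix (Fin n) (Fin n) ℤ)) ⬝ᵥ xu = 1 := by
    rw [hxu, vecMul_inv_dot, hpu]
  rw [dotProduct_mulVec, ← hψy]
  have hyxu : ψy ⬝ᵥ xu = 0 := by rw [hψy, hxu, vecMul_inv_dot, hu1]
  rw [← S_SAND_key hn φ xu ψ _ q hp' hq hu2]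
  -- `h = x τ x⁻¹ τ⁻¹ = tv xu ψy * (tv u ψ)⁻¹`
  have hconj : x * tv u ψ * x⁻¹ = tv xu ψy := tv_conj hu1 x
  set h : SLZ n := tv xu ψy * (tv u ψ)⁻¹ with hh
  have hφh : φ h = 1 := by
    rw [hh, ← hconj, map_mul, map_mul, map_mul, map_inv, map_inv, hx]
    simp
  have hw' : ψ ⬝ᵥ w = 0 := hw
  -- conjugate of `tv w ψ` by `h`
  have e1 : h * tv w ψ * h⁻¹ = tv (w + (ψy ⬝ᵥ w) • xu) ψ := by
    rw [tv_conj hw]
    congr 1
    · have h7 : ((tv u ψ)⁻¹ : SLZ n) = tv u (-ψ) := (tv_neg_right hu1).symm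
      have h7a : ((tv u (-ψ) : SLZ n) : Matrix (Fin n) (Fin n) ℤ) *ᵥ w = w := by
        rw [tv_mulVec (by rw [neg_dotProduct, hu1, neg_zero]), neg_dotProduct, hw, neg_zero, zero_smul,
          add_zero]
      rw [hh, h7, Matrix.SpecialLinearGroup.coe_mul, ← mulVec_mulVec, h7a, tv_mulVec hyxu]
    · rw [hh, _root_.mul_inv_rev, inv_inv, Matrix.SpecialLinearGroup.coe_mul, ← vecMul_vecMul, tv_vecMul hu1, hu1,
        zero_smul, add_zero]
      have h8 : ((tv xu ψy)⁻¹ : SLZ n) = tv xu (-ψy) := (tv_neg_right hyxu).symm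
      rw [h8, tv_vecMul (by rw [neg_dotProduct, hyxu, neg_zero]), hu2, zero_smul, add_zero]
  have hs : ψ ⬝ᵥ ((ψy ⬝ᵥ w) • xu) = 0 := by rw [dotProduct_smul, hu2, smul_zero]
  rw [tv_add_left hw hs] at e1
  have e2 : φ (tv w ψ) = φ (tv w ψ) * φ (tv ((ψy ⬝ᵥ w) • xu) ψ) := by
    rw [← map_mul, ← e1, map_mul, map_mul, map_inv, hφh]
    simp
  rw [← tv_smul_comm hu2]
  exact (mul_eq_left.mp e2.symm)

theorem S_SAND_two {n : ℕ} (hn : 3 ≤ n) (Q : Type) [Group Q] (φ : SLZ n →* Q)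
    (x : SLZ n) (hx : φ x⁻¹ = 1) : ScM (orderOf (φ (e01 n hn))) (x : Matrix (Fin n) (Fin n) ℤ) := by
  set j := orderOf (φ (e01 n hn)) with hj
  have key : ∀ (ψ q w : Fin n → ℤ), ψ ⬝ᵥ q = 1 → ψ ⬝ᵥ w = 0 →
      (j : ℤ) ∣ ψ ⬝ᵥ ((x : Matrix (Fin n) (Fin n) ℤ) *ᵥ w) := by
    intro ψ q w h1 h2
    have := S_SAND_step hn Q φ x⁻¹ hx ψ q w h1 h2
    rwa [inv_inv] at this
  have hoff : ∀ i k : Fin n, i ≠ k → (j : ℤ) ∣ (x : Matrix (Fin n) (Fin n) ℤ) i k := by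
    intro i k hik
    have := key (Pi.single i 1) (Pi.single i 1) (Pi.single k 1) (by simp) (by simp [hik])
    rw [mulVec_single_one, single_one_dotProduct] at this
    exact this
  refine ⟨hoff, fun i k => ?_⟩
  show (j : ℤ) ∣ _
  by_cases hik : i = k
  · rw [hik, sub_self]; exact dvd_zero _
  have h1 := key (Pi.single i 1 + Pi.single k 1) (Pi.single i 1) (Pi.single i 1 - Pi.single k 1)
    (by simp [hik]) (by simp [hik, Ne.symm hik])
  rw [mulVec_sub, mulVec_single_one, mulVec_single_one, add_dotProduct, single_one_dotProduct,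
    single_one_dotProduct] at h1
  simp only [Pi.sub_apply, col_apply] at h1
  have h2 := hoff i k hik
  have h3 := hoff k i (Ne.symm hik)
  have h4 : (x : Matrix (Fin n) (Fin n) ℤ) i i - (x : Matrix (Fin n) (Fin n) ℤ) k k =
    ((x : Matrix (Fin n) (Fin n) ℤ) i i - (x : Matrix (Fin n) (Fin n) ℤ) i k +
      ((x : Matrix (Fin n) (Fin n) ℤ) k i - (x : Matrix (Fin n) (Fin n) ℤ) k k)) +
      (x : Matrix (Fin n) (Fin n) ℤ) i k - (x : Matrix (Fin n) (Fin n) ℤ) k i := by ring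
  rw [h4]
  exact dvd_sub (dvd_add h1 h2) h3

theorem S_SAND (hM : M_ALL_stmt) : S_SAND_stmt := by
  intro n hn Q _ _ φ
  refine ⟨fun γ hγ => S_SAND_one hM hn Q φ γ hγ, fun γ hγ => ?_⟩
  apply S_SAND_two hn Q φ γ
  rw [map_inv, hγ, inv_one]

end Pool.Agent.PR
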